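import Pool.Agent.J6H42.CE.One

/-! Closed subgroups generated by one element. -/

set_option autoImplicit false

namespace Pool.Agent.J6H42.CE

open Pool.Agent.H315R3.ETC Pool.Agent.TH673.VG Pool.Agent.R19.QS

section
variable {S : QData} (h : IsQuat S) {B : Type*} [AddCommGroup B] {β : S.G → S.G → B}
  (hb : Br S β)

include h hb in
/-- symbols on a closed subgroup which agree with a functional on a subgroup whose closure is
everything agree with it everywhere -/
theorem agree_of_closed {H : Subgroup S.G} (hH : Closed S H) {χ : S.G → S.G → ZMod 2}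
    (hχ : Sy S H χ) (l : B →+ ZMod 2) {e : S.G} (he : e ∈ H)
    (hmin : ∀ L : Subgroup S.G, Closed S L → e ∈ L → H ≤ L)
    (hC : ∀ a ∈ Core S, ∀ b, l (β a b) = χ a b) (hE : ∀ b, l (β e b) = χ e b) :
    ∀ a ∈ H, ∀ b, l (β a b) = χ a b := by
  let L : Subgroup S.G :=
    { carrier := {a | a ∈ H ∧ ∀ b, l (β a b) = χ a b}
      one_mem' := ⟨H.one_mem, fun b => by
        rw [b_comm h hb, b_one hb, map_zero, hχ.2.2 1 H.one_mem b (q_one' h b)]⟩
      mul_mem' := by
        rintro a a' ⟨h1, h2⟩ ⟨h3, h4⟩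
        refine ⟨H.mul_mem h1 h3, fun b => ?_⟩
        rw [b_add_left h hb, map_add, h2, h4, hχ.1 a h1 a' h3]
      inv_mem' := by
        rintro a ha
        rw [inv_self' h]
        exact ha }
  have hCH : Core S ≤ H := sInf_le hH
  have hL : Closed S L := by
    refine ⟨fun a ha => ⟨hH.1 a ha, fun b => hC a (core_closed.1 a ha) b⟩, fun a ha => ?_⟩
    have haH : a ∈ H := by
      refine hH.2 a fun x => ?_
      obtain ⟨v, k, hv, hk, e⟩ := ha x
      exact ⟨v, k, hv, hk.1, e⟩
    refine ⟨haH, fun b => ?_⟩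
    obtain ⟨v, k, hv, hk, rfl⟩ := ha b
    rw [hb.add, map_add, (b_zero_iff h hb a v).2 hv, map_zero, zero_add, hχ.2.1 a haH,
      hχ.2.2 a haH v hv, zero_add, b_comm h hb a k, hk.2 a]
    exact sy_eq h hχ hk.1 haH (h.qs2 k a)
  intro a ha
  exact (hmin L hL ⟨he, hE⟩ ha).2

include h hb in
/-- symbols on closed subgroups generated by one element come from functionals -/
theorem extend_cyc {H : Subgroup S.G} (hH : Closed S H) {e : S.G} (he : e ∈ H)
    (hmin : ∀ L : Subgroup S.G, Closed S L → e ∈ L → H ≤ L) {χ : S.G → S.G → ZMod 2}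
    (hχ : Sy S H χ) : ∃ l : B →+ ZMod 2, ∀ a ∈ H, ∀ b, l (β a b) = χ a b := by
  have hCH : Core S ≤ H := sInf_le hH
  have hle : Core S ⊔ Subgroup.zpowers e ≤ H := by
    refine sup_le hCH ?_
    rw [Subgroup.zpowers_le]
    exact he
  obtain ⟨l, hl⟩ := extend_core_one h hb e χ ⟨fun a ha b hb => hχ.1 a (hle ha) b (hle hb),
    fun a ha => hχ.2.1 a (hle ha), fun a ha => hχ.2.2 a (hle ha)⟩
  exact ⟨l, agree_of_closed h hb hH hχ l he hmin
    (fun a ha => hl a (Subgroup.mem_sup_left ha))
    (hl e (Subgroup.mem_sup_right (Subgroup.mem_zpowers e)))⟩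

variable [Finite S.G]

include h hb in
/-- elementary type, if every closed subgroup of index at least eight is generated by one
element -/
theorem elem_of_cyc (hM : ∀ H : Subgroup S.G, Closed S H → 8 ≤ H.index →
    ∃ e ∈ H, ∀ L : Subgroup S.G, Closed S L → e ∈ L → H ≤ L) : Elem S := by
  refine elem_of_closed h fun H hcl h8 χ hχ => ?_
  obtain ⟨e, he, hmin⟩ := hM H hcl h8
  obtain ⟨l, hl⟩ := extend_cyc h hb hcl he hmin hχ
  obtain ⟨a, ha⟩ := exists_out h8
  obtain ⟨s1, s2, s3⟩ := sy_of_hom h hb l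
  exact ⟨a, ha, fun a b => l (β a b), ⟨fun a _ b _ => s1 a trivial b trivial,
    fun a _ => s2 a trivial, fun a _ => s3 a trivial⟩, hl⟩

omit [Finite S.G] in
/-- closed subgroups in which the core has index at most two -/
lemma cyc_of_two [Finite S.G] {H : Subgroup S.G} (hcl : Closed S H)
    (hi : (Core S).index < 4 * H.index) :
    ∃ e ∈ H, ∀ L : Subgroup S.G, Closed S L → e ∈ L → H ≤ L := by
  have hcore : Core S ≤ H := sInf_le hcl
  by_cases he : Core S = H
  · exact ⟨1, H.one_mem, fun L hL _ => he ▸ sInf_le hL⟩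
  have hlt : Core S < H := lt_of_le_of_ne hcore he
  obtain ⟨e, heH, heC⟩ := SetLike.exists_of_lt hlt
  have h1 : Core S < Core S ⊔ Subgroup.zpowers e := lt_sup_zpowers heC
  have h2 : Core S ⊔ Subgroup.zpowers e ≤ H := by
    refine sup_le hcore ?_
    rw [Subgroup.zpowers_le]
    exact heH
  have h3 : Core S ⊔ Subgroup.zpowers e = H := by
    by_contra hne
    have h4 := two_mul_index h1
    have h5 := two_mul_index (lt_of_le_of_ne h2 hne)
    omega
  refine ⟨e, heH, fun L hL heL => ?_⟩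
  rw [← h3]
  refine sup_le (sInf_le hL) ?_
  rw [Subgroup.zpowers_le]
  exact heL

end

end Pool.Agent.J6H42.CE
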