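import Pool.Agent.J6H42.CE.Sym

/-! Symbols on the core extend: the main theorem. -/

set_option autoImplicit false

namespace Pool.Agent.J6H42.CE

open Pool.Agent.H315R3.ETC Pool.Agent.TH673.VG Pool.Agent.R19.QS

/-- values on a family of elements of a group of exponent two which respect all relations come
from a homomorphism -/
lemma exists_functional {ι B : Type*} [AddCommGroup B] (two : ∀ b : B, b + b = 0) (v : ι → B)
    (c : ι → ZMod 2) (hz : ∀ A : Finset ι, ∑ t ∈ A, v t = 0 → ∑ t ∈ A, c t = 0) :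
    ∃ l : B →+ ZMod 2, ∀ t, l (v t) = c t := by
  classical
  let _ : Module (ZMod 2) B := AddCommGroup.zmodModule (n := 2) (fun x => by
    rw [two_smul]; exact two x)
  have h01 : ∀ w : ZMod 2, w ≠ 0 → w = 1 := by decide
  have k1 : ∀ x : ι →₀ ZMod 2, Finsupp.linearCombination (ZMod 2) v x = ∑ t ∈ x.support, v t := by
    intro x
    rw [Finsupp.linearCombination_apply, Finsupp.sum]
    refine Finset.sum_congr rfl fun t ht => ?_
    rw [h01 _ (Finsupp.mem_support_iff.1 ht), one_smul]
  have k2 : ∀ x : ι →₀ ZMod 2, Finsupp.linearCombination (ZMod 2) c x = ∑ t ∈ x.support, c t := by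
    intro x
    rw [Finsupp.linearCombination_apply, Finsupp.sum]
    refine Finset.sum_congr rfl fun t ht => ?_
    rw [h01 _ (Finsupp.mem_support_iff.1 ht), one_smul]
  obtain ⟨l, hl⟩ := Pool.Agent.TH188.ET.exists_factor two
    (Finsupp.linearCombination (ZMod 2) v).toAddMonoidHom
    (Finsupp.linearCombination (ZMod 2) c).toAddMonoidHom (by
      intro x hx
      have hx' : Finsupp.linearCombination (ZMod 2) v x = 0 := hx
      show Finsupp.linearCombination (ZMod 2) c x = 0
      rw [k2]
      rw [k1] at hx'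
      exact hz _ hx')
  refine ⟨l, fun t => ?_⟩
  have h1 := hl (Finsupp.single t 1)
  have h2 : (Finsupp.linearCombination (ZMod 2) v).toAddMonoidHom (Finsupp.single t 1) = v t := by
    show Finsupp.linearCombination (ZMod 2) v (Finsupp.single t 1) = v t
    rw [Finsupp.linearCombination_single, one_smul]
  have h3 : (Finsupp.linearCombination (ZMod 2) c).toAddMonoidHom (Finsupp.single t 1) = c t := by
    show Finsupp.linearCombination (ZMod 2) c (Finsupp.single t 1) = c t
    rw [Finsupp.linearCombination_single, one_smul]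
  rw [h2, h3] at h1
  exact h1

lemma sum_symm {ι B : Type*} [DecidableEq ι] [AddCommGroup B] (two : ∀ b : B, b + b = 0)
    (v : ι → B) (A A' : Finset ι) :
    ∑ t ∈ (A \ A') ∪ (A' \ A), v t = (∑ t ∈ A, v t) + ∑ t ∈ A', v t := by
  have h1 := Finset.sum_sdiff (f := v) (Finset.inter_subset_left (s₁ := A) (s₂ := A'))
  have h2 := Finset.sum_sdiff (f := v) (Finset.inter_subset_right (s₁ := A) (s₂ := A'))
  rw [Finset.sdiff_inter_self_left] at h1
  rw [Finset.sdiff_inter_self_right] at h2
  rw [Finset.sum_union (disjoint_sdiff_sdiff), ← h1, ← h2, add_add_add_comm, two, add_zero]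

section
variable {S : QData} (h : IsQuat S) {B : Type*} [AddCommGroup B] {β : S.G → S.G → B}
  (hb : Br S β)

include h in
/-- an element whose value group has index at most two has one quaternion besides `0` -/
lemma gt_of_indexTwo {a : S.G} (ha : IndexTwo S a) {y : S.G} (hy : S.q a y ≠ S.zero) :
    a ∈ GT h (S.q a y) := by
  intro z
  rcases ha z y with h1 | h1 | h1
  · exact Or.inl h1
  · exact absurd h1 hy
  · exact Or.inr ((h.qs3 _ _ _).2 h1)

lemma idx_le_core : IdxGroup S ≤ Core S := by
  rw [IdxGroup, Subgroup.closure_le]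
  intro a ha
  exact Subgroup.mem_sInf.2 fun L hL => hL.1 a ha

lemma core_closed : Closed S (Core S) := by
  refine ⟨fun a ha => Subgroup.mem_sInf.2 fun L hL => hL.1 a ha, fun a ha =>
    Subgroup.mem_sInf.2 fun L hL => hL.2 a fun x => ?_⟩
  obtain ⟨v, k, hv, hk, e⟩ := ha x
  exact ⟨v, k, hv, Subgroup.mem_sInf.1 hk L hL, e⟩

include h in
lemma gt_mem_idx {t : S.Q} {g : S.G} (hg : g ∈ GT h t) : g ∈ IdxGroup S := by
  refine Subgroup.subset_closure fun x y => ?_
  rcases hg x with h1 | h1
  · exact Or.inl h1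
  rcases hg y with h2 | h2
  · exact Or.inr (Or.inl h2)
  · exact Or.inr (Or.inr ((h.qs3 _ _ _).1 (h1.trans h2.symm)))

include h hb in
/-- symbols on the core extend to the group -/
theorem extend_core (χ : S.G → S.G → ZMod 2) (hχ : Sy S (Core S) χ) :
    ∃ l : B →+ ZMod 2, ∀ a ∈ Core S, ∀ b, l (β a b) = χ a b := by
  classical
  -- the choices
  have hex : ∀ t : S.Q, ∃ p : S.G × S.G, (Good h t → p.1 ∈ GT h t ∧ S.q p.1 p.2 = t) ∧
      (¬ Good h t → p = 1) := by
    intro t
    by_cases ht : Good h t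
    · obtain ⟨p, hp⟩ := ht.2
      exact ⟨p, fun _ => hp, fun hc => absurd ht hc⟩
    · exact ⟨1, fun hc => absurd hc ht, fun _ => rfl⟩
  choose p hp1 hp2 using hex
  have hgH : ∀ t, Good h t → (p t).1 ∈ Core S := fun t ht =>
    idx_le_core (gt_mem_idx h (hp1 t ht).1)
  have hzs := zero_sum h hb hχ (fun t => (p t).1) (fun t => (p t).2) hgH
    (fun t ht => (hp1 t ht).1) (fun t ht => (hp1 t ht).2)
  obtain ⟨l, hl⟩ := exists_functional hb.two (fun t => β (p t).1 (p t).2)
    (fun t => χ (p t).1 (p t).2) (by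
      intro A hA
      have h1 : ∑ t ∈ A.filter (Good h), β (p t).1 (p t).2 = 0 := by
        rw [← hA]
        refine Finset.sum_filter_of_ne fun t _ hne => ?_
        by_contra hc
        apply hne
        rw [hp2 t hc]
        exact b_one hb _
      have h2 := hzs _ (A.filter (Good h)) rfl (fun t ht => (Finset.mem_filter.1 ht).2) h1
      rw [← h2]
      symm
      refine Finset.sum_filter_of_ne fun t _ hne => ?_
      by_contra hc
      apply hne
      rw [hp2 t hc]
      exact hχ.2.2 _ (Core S).one_mem _ (q_one h _))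
  refine ⟨l, ?_⟩
  let L : Subgroup S.G :=
    { carrier := {a | a ∈ Core S ∧ ∀ b, l (β a b) = χ a b}
      one_mem' := ⟨(Core S).one_mem, fun b => by
        rw [b_comm h hb, b_one hb, map_zero, hχ.2.2 1 (Core S).one_mem b (q_one' h b)]⟩
      mul_mem' := by
        rintro a a' ⟨h1, h2⟩ ⟨h3, h4⟩
        refine ⟨(Core S).mul_mem h1 h3, fun b => ?_⟩
        rw [b_add_left h hb, map_add, h2, h4, hχ.1 a h1 a' h3]
      inv_mem' := by
        rintro a ha
        rw [inv_self' h]
        exact ha }
  have hL : Closed S L := by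
    refine ⟨fun a ha => ⟨core_closed.1 a ha, fun b => ?_⟩, fun a ha => ?_⟩
    · by_cases hb0 : S.q a b = S.zero
      · rw [(b_zero_iff h hb a b).2 hb0, map_zero, hχ.2.2 a (core_closed.1 a ha) b hb0]
      · have hg : Good h (S.q a b) := ⟨hb0, (a, b), gt_of_indexTwo h ha hb0, rfl⟩
        have e1 := hl (S.q a b)
        have e2 : S.q (p (S.q a b)).1 (p (S.q a b)).2 = S.q a b := (hp1 _ hg).2
        have e3 : β (p (S.q a b)).1 (p (S.q a b)).2 = β a b := (hb.eq _ _ _ _).2 e2
        have e4 : χ (p (S.q a b)).1 (p (S.q a b)).2 = χ a b :=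
          sy_eq h hχ (hgH _ hg) (core_closed.1 a ha) e2
        rw [← e3, ← e4]
        exact e1
    · have haC : a ∈ Core S := by
        refine core_closed.2 a fun x => ?_
        obtain ⟨v, k, hv, hk, e⟩ := ha x
        exact ⟨v, k, hv, hk.1, e⟩
      refine ⟨haC, fun b => ?_⟩
      obtain ⟨v, k, hv, hk, rfl⟩ := ha b
      rw [hb.add, map_add, (b_zero_iff h hb a v).2 hv, map_zero, zero_add, hχ.2.1 a haC,
        hχ.2.2 a haC v hv, zero_add, b_comm h hb a k, hk.2 a]
      exact sy_eq h hχ hk.1 haC (h.qs2 k a)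
  intro a ha
  exact (Subgroup.mem_sInf.1 ha L hL).2

include h hb in
/-- homomorphisms give symbols -/
lemma sy_of_hom (l : B →+ ZMod 2) : Sy S ⊤ (fun a b => l (β a b)) :=
  ⟨fun a _ b _ c => by
    show l (β (a * b) c) = l (β a c) + l (β b c)
    rw [b_add_left h hb, map_add], fun a _ b c => by
    show l (β a (b * c)) = l (β a b) + l (β a c)
    rw [hb.add, map_add], fun a _ b h0 => by
    show l (β a b) = 0
    rw [(b_zero_iff h hb a b).2 h0, map_zero]⟩

include h hb in
theorem canExt_core (hC : Core S ≠ ⊤) : CanExt S (Core S) := by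
  intro χ hχ
  obtain ⟨l, hl⟩ := extend_core h hb χ hχ
  obtain ⟨a, ha⟩ : ∃ a : S.G, a ∉ Core S := by
    by_contra hc
    push Not at hc
    exact hC (eq_top_iff.2 fun x _ => hc x)
  obtain ⟨s1, s2, s3⟩ := sy_of_hom h hb l
  exact ⟨a, ha, fun a b => l (β a b), ⟨fun a _ b _ => s1 a trivial b trivial,
    fun a _ => s2 a trivial, fun a _ => s3 a trivial⟩, hl⟩

include h in
lemma exists_choice : ∃ g u : S.Q → S.G, (∀ t, Good h t → g t ∈ GT h t) ∧
    (∀ t, Good h t → S.q (g t) (u t) = t) := by
  classical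
  have hex : ∀ t : S.Q, ∃ p : S.G × S.G, Good h t → p.1 ∈ GT h t ∧ S.q p.1 p.2 = t := by
    intro t
    by_cases ht : Good h t
    · obtain ⟨p, hp⟩ := ht.2
      exact ⟨p, fun _ => hp⟩
    · exact ⟨1, fun hc => absurd hc ht⟩
  choose p hp using hex
  exact ⟨fun t => (p t).1, fun t => (p t).2, fun t ht => (hp t ht).1, fun t ht => (hp t ht).2⟩

include h hb in
/-- quaternions with a slot in the core are sums of good quaternions -/
theorem rep_core (g u : S.Q → S.G) (hu : ∀ t, Good h t → S.q (g t) (u t) = t) :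
    ∀ a ∈ Core S, ∀ x, ∃ A : Finset S.Q, (∀ t ∈ A, Good h t) ∧
      ∑ t ∈ A, β (g t) (u t) = β a x := by
  classical
  -- the sums form a group
  have hadd : ∀ b b' : B, (∃ A : Finset S.Q, (∀ t ∈ A, Good h t) ∧ ∑ t ∈ A, β (g t) (u t) = b) →
      (∃ A : Finset S.Q, (∀ t ∈ A, Good h t) ∧ ∑ t ∈ A, β (g t) (u t) = b') →
      ∃ A : Finset S.Q, (∀ t ∈ A, Good h t) ∧ ∑ t ∈ A, β (g t) (u t) = b + b' := by
    rintro b b' ⟨A, hA, rfl⟩ ⟨A', hA', rfl⟩
    refine ⟨(A \ A') ∪ (A' \ A), fun t ht => ?_, ?_⟩
    · rcases Finset.mem_union.1 ht with ht | ht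
      · exact hA t (Finset.sdiff_subset ht)
      · exact hA' t (Finset.sdiff_subset ht)
    · exact sum_symm hb.two _ A A'
  let L : Subgroup S.G :=
    { carrier := {a | a ∈ Core S ∧ ∀ x, ∃ A : Finset S.Q, (∀ t ∈ A, Good h t) ∧
        ∑ t ∈ A, β (g t) (u t) = β a x}
      one_mem' := ⟨(Core S).one_mem, fun b => ⟨∅, fun t ht => absurd ht (Finset.notMem_empty t), by
        rw [Finset.sum_empty, b_comm h hb, b_one hb]⟩⟩
      mul_mem' := by
        rintro a a' ⟨h1, h2⟩ ⟨h3, h4⟩
        refine ⟨(Core S).mul_mem h1 h3, fun x => ?_⟩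
        rw [b_add_left h hb]
        exact hadd _ _ (h2 x) (h4 x)
      inv_mem' := by
        rintro a ha
        rw [inv_self' h]
        exact ha }
  have hL : Closed S L := by
    refine ⟨fun a ha => ⟨core_closed.1 a ha, fun b => ?_⟩, fun a ha => ?_⟩
    · by_cases hb0 : S.q a b = S.zero
      · exact ⟨∅, fun t ht => absurd ht (Finset.notMem_empty t), by
          rw [(b_zero_iff h hb a b).2 hb0, Finset.sum_empty]⟩
      · have hg : Good h (S.q a b) := ⟨hb0, (a, b), gt_of_indexTwo h ha hb0, rfl⟩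
        exact ⟨{S.q a b}, fun t ht => by rw [Finset.mem_singleton.1 ht]; exact hg, by
          rw [Finset.sum_singleton]
          exact (hb.eq _ _ _ _).2 (hu _ hg)⟩
    · have haC : a ∈ Core S := by
        refine core_closed.2 a fun x => ?_
        obtain ⟨v, k, hv, hk, e⟩ := ha x
        exact ⟨v, k, hv, hk.1, e⟩
      refine ⟨haC, fun b => ?_⟩
      obtain ⟨v, k, hv, hk, rfl⟩ := ha b
      rw [hb.add, (b_zero_iff h hb a v).2 hv, zero_add, b_comm h hb a k]
      exact hk.2 a
  intro a ha
  exact (Subgroup.mem_sInf.1 ha L hL).2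

include h hb in
/-- the quaternions with a slot in the core form a group, and they have a slot in the group
generated by the elements whose value group has index at most two -/
theorem sum_core (a a' : S.G) (ha : a ∈ Core S) (ha' : a' ∈ Core S) (x x' : S.G) :
    ∃ k ∈ IdxGroup S, ∃ y, β k y = β a x + β a' x' := by
  classical
  obtain ⟨g, u, hg, hu⟩ := exists_choice h
  obtain ⟨A, hA, e⟩ := rep_core h hb g u hu a ha x
  obtain ⟨A', hA', e'⟩ := rep_core h hb g u hu a' ha' x'
  have e2 : ∑ t ∈ (A \ A') ∪ (A' \ A), β (g t) (u t) = β a x + β a' x' := by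
    rw [← e, ← e']
    exact sum_symm hb.two _ A A'
  obtain ⟨A'', hA'', y, hy⟩ := single h hb g u hg hu _ ((A \ A') ∪ (A' \ A)) rfl (fun t ht => by
    rcases Finset.mem_union.1 ht with ht | ht
    · exact hA t (Finset.sdiff_subset ht)
    · exact hA' t (Finset.sdiff_subset ht))
  refine ⟨∏ t ∈ A'', g t, (IdxGroup S).prod_mem fun t ht => ?_, y, hy.trans e2⟩
  refine gt_mem_idx h (hg t ?_)
  rcases Finset.mem_union.1 (hA'' ht) with ht | ht
  · exact hA t (Finset.sdiff_subset ht)
  · exact hA' t (Finset.sdiff_subset ht)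

/-- the elements `b` such that `q(a,b)` has a slot in the core -/
def MM (a : S.G) : Subgroup S.G where
  carrier := {b | ∃ k ∈ Core S, ∃ y, β a b = β k y}
  one_mem' := ⟨1, (Core S).one_mem, 1, by rw [b_one hb, b_one hb]⟩
  mul_mem' := by
    rintro b b' ⟨k, hk, y, e⟩ ⟨k', hk', y', e'⟩
    obtain ⟨l, hl, z, e''⟩ := sum_core h hb k k' hk hk' y y'
    exact ⟨l, idx_le_core hl, z, by rw [hb.add, e, e', e'']⟩
  inv_mem' := by
    intro b hb'
    rw [inv_self' h]
    exact hb'

include h hb in
/-- symbols on subgroups in which the core has index two extend to a larger subgroup -/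
theorem canExt_two {H : Subgroup S.G} {e : S.G} (he : H = Core S ⊔ Subgroup.zpowers e)
    (hH : H ≠ ⊤) : CanExt S H := by
  classical
  have hCH : Core S ≤ H := by rw [he]; exact le_sup_left
  have heH : e ∈ H := by rw [he]; exact Subgroup.mem_sup_right (Subgroup.mem_zpowers e)
  intro χ hχ
  have z2 : ∀ w : ZMod 2, w + w = 0 := by decide
  obtain ⟨l, hl⟩ := extend_core h hb χ ⟨fun a ha b hb => hχ.1 a (hCH ha) b (hCH hb),
    fun a ha => hχ.2.1 a (hCH ha), fun a ha => hχ.2.2 a (hCH ha)⟩
  obtain ⟨a, ha⟩ : ∃ a : S.G, a ∉ H := by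
    by_contra hc
    push Not at hc
    exact hH (eq_top_iff.2 fun x _ => hc x)
  -- the difference vanishes on the core
  have hφ : ∀ x y : S.G, χ e (x * y) + l (β e (x * y)) =
      (χ e x + l (β e x)) + (χ e y + l (β e y)) := by
    intro x y
    rw [hχ.2.1 e heH, hb.add, map_add]
    ring
  have hinter : ∀ k ∈ MM h hb (a * e), k ∈ MM h hb a → χ e k + l (β e k) = 0 := by
    rintro k ⟨c, hc, y, e1⟩ ⟨c', hc', y', e2⟩
    obtain ⟨d, hd, w, e3⟩ := sum_core h hb c c' hc hc' y y'
    have hdC := idx_le_core hd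
    have e4 : β e k = β d w := by
      rw [e3, ← e1, ← e2, b_add_left h hb]
      have := hb.two (β a k)
      rw [add_right_comm, this, zero_add]
    have e5 : χ e k = χ d w := sy_eq h hχ heH (hCH hdC) ((hb.eq _ _ _ _).1 e4)
    rw [e4, e5, hl d hdC, z2]
  obtain ⟨f, F1, F2, F3⟩ := hom_glue h (MM h hb a) (MM h hb (a * e))
    (fun x => χ e x + l (β e x)) (fun x _ y _ => hφ x y) hinter
  refine ⟨a, ha, ?_⟩
  refine extend_of_hom h H χ hχ a ha (fun b => f b + l (β a b)) (fun x y => ?_) ?_
  · show f (x * y) + l (β a (x * y)) = (f x + l (β a x)) + (f y + l (β a y))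
    rw [F1, hb.add, map_add]; ring
  · intro g hg b hgb
    show f b + l (β a b) = χ g b
    have e0 : β a b = β g b := by
      have h0 := (b_zero_iff h hb (a * g) b).2 hgb
      rw [b_add_left h hb] at h0
      have h1 := hb.two (β g b)
      exact (add_right_cancel (h0.trans h1.symm))
    rw [he] at hg
    rcases mem_sup_z h hg with hgC | hgC
    · rw [F2 b ⟨g, hgC, b, e0⟩, zero_add, e0, hl g hgC]
    · have hmem : b ∈ MM h hb (a * e) := by
        refine ⟨g * e, hgC, b, ?_⟩
        rw [b_add_left h hb, b_add_left h hb, e0]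
      rw [F3 b hmem, e0]
      have e1 := hl (g * e) hgC b
      rw [b_add_left h hb, map_add] at e1
      have e2 : χ g b + χ e b = χ (g * e) b := (hχ.1 g (by rw [he]; exact hg) e heH b).symm
      have e3 := z2 (χ e b)
      have e4 := z2 (l (β e b))
      linear_combination e1 - e2 + e3 - e4 + z2 (l (β e b))

variable [Finite S.G]

include h hb in
/-- elementary type, if symbols extend over the closed subgroups of index at least eight in which
the core has index at least four -/
theorem elem_of_core_four (hM : ∀ H : Subgroup S.G, Closed S H → 8 ≤ H.index →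
    4 * H.index ≤ (Core S).index → CanExt S H) : Elem S := by
  refine elem_of_closed h fun H hcl h8 => ?_
  have hcore : Core S ≤ H := sInf_le hcl
  have hH : H ≠ ⊤ := by
    intro hc
    rw [hc, Subgroup.index_top] at h8
    omega
  by_cases he : Core S = H
  · rw [← he]
    exact canExt_core h hb (by rw [he]; exact hH)
  have hlt : Core S < H := lt_of_le_of_ne hcore he
  obtain ⟨e, heH, heC⟩ := SetLike.exists_of_lt hlt
  have h1 : Core S < Core S ⊔ Subgroup.zpowers e := lt_sup_zpowers heC
  have h2 : Core S ⊔ Subgroup.zpowers e ≤ H := by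
    refine sup_le hcore ?_
    rw [Subgroup.zpowers_le]
    exact heH
  by_cases h3 : Core S ⊔ Subgroup.zpowers e = H
  · exact canExt_two h hb h3.symm hH
  · have h4 := two_mul_index h1
    have h5 := two_mul_index (lt_of_le_of_ne h2 h3)
    exact hM H hcl h8 (by omega)

include h hb in
/-- elementary type, if the core has index at most sixteen -/
theorem elem_of_core_sixteen (hi : (Core S).index ≤ 16) : Elem S :=
  elem_of_core_four h hb fun H _ h8 h4 => by omega

end

end Pool.Agent.J6H42.CE
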