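import Pool.Agent.J6H42.CE.One
import Pool.Agent.TH188.ET.FieldSmall
import Pool.Agent.TH673.VG.FieldInd

/-! The structure of a field, its core and its quaternion algebras. -/

set_option autoImplicit false

namespace Pool.Agent.J6H42.CE

open Pool.Agent.H315R3.ETC Pool.Agent.TH673.VG Pool.Agent.R19.QS Pool.Agent.TH188.ET
  Pool.Agent.TH188.ETF

universe u

theorem field_data {F : Type u} [Field F] (h2 : (2 : F) ≠ 0) (hfin : FinSq F) :
    ∃ (S : QData) (φ : Fˣ →* S.G) (r : S.G → Fˣ), IsStructureOf F S ∧ Finite S.G ∧ IsQuat S ∧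
      (∀ g, φ (r g) = g) ∧ (∀ a : Fˣ, φ a = 1 ↔ ∃ b : Fˣ, a = b ^ 2) ∧
      (∀ a b : Fˣ, S.q (φ a) (φ b) = S.zero ↔ NormFrom a b) ∧
      ∃ β : S.G → S.G → B2 F, Br S β ∧ ∀ a b : Fˣ, β (φ a) (φ b) = bq h2 a b := by
  obtain ⟨S, hS, hSfin, hSq⟩ := exists_structure h2 hfin
  obtain ⟨φ, hs, hk, hn, h0, hq⟩ := id hS
  have hz : ∀ a b : Fˣ, S.q (φ a) (φ b) = S.zero ↔ NormFrom a b := by
    intro a b
    rw [← qiso_one h2, ← h0, ← map_one φ]
    exact hq a b 1 1
  have hinv : ∀ a b a' b' : Fˣ, φ a = φ a' → φ b = φ b' → bq h2 a b = bq h2 a' b' := by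
    intro a b a' b' h1 h3
    rw [bq_eq_iff]
    exact qiso_of_phi h2 hk h1 h3
  choose r hr using hs
  refine ⟨S, φ, r, hS, hSfin, hSq, hr, hk, hz, fun g h => bq h2 (r g) (r h), ⟨?_, ?_, B2_add_self⟩,
    fun a b => hinv _ _ _ _ (hr _) (hr _)⟩
  · intro g h k
    show bq h2 (r g) (r (h * k)) = bq h2 (r g) (r h) + bq h2 (r g) (r k)
    rw [← bq_mul]
    apply hinv _ _ _ _ rfl
    rw [map_mul, hr, hr, hr]
  · intro g h k l
    show bq h2 (r g) (r h) = bq h2 (r k) (r l) ↔ _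
    rw [bq_eq_iff]
    have := hq (r g) (r h) (r k) (r l)
    rw [hr, hr, hr, hr] at this
    exact this.symm

section
variable {F : Type u} [Field F] {S : QData} {φ : Fˣ →* S.G}

lemma closed_comap (hs : Function.Surjective φ)
    (hk : ∀ a : Fˣ, φ a = 1 ↔ ∃ b : Fˣ, a = b ^ 2) (hfin : Finite S.G)
    (hz : ∀ a b : Fˣ, S.q (φ a) (φ b) = S.zero ↔ NormFrom a b) {L : Subgroup S.G}
    (hL : Closed S L) : NormClosed (L.comap φ) :=
  ⟨fun a ha => hL.1 _ ((index_two_iff hs hk hfin hz a).1 ha),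
    fun a ha => hL.2 _ ((sup_iff hs hk hz a L).1 ha)⟩

/-- closed subgroups of the field with large index over the core -/
theorem elem_field (h2 : (2 : F) ≠ 0) (hfin : FinSq F)
    (hL : ∀ L : Subgroup Fˣ, NormClosed L → 4 ≤ (fieldCore F).relIndex L → L.index ≤ 4) :
    ∃ S : QData, Elem S ∧ IsStructureOf F S := by
  obtain ⟨S, φ, r, hS, hSfin, hSq, hr, hk, hz, β, hb, -⟩ := field_data h2 hfin
  have hs : Function.Surjective φ := fun g => ⟨r g, hr g⟩
  refine ⟨S, elem_of_core_four hSq hb fun H hH h8 h4 => ?_, hS⟩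
  exfalso
  have h1 := closed_comap hs hk hSfin hz hH
  have h3 : (H.comap φ).index = H.index := Subgroup.index_comap_of_surjective _ hs
  have h5 : fieldCore F ≤ H.comap φ := sInf_le h1
  have h6 := Subgroup.relIndex_mul_index h5
  rw [core_index h2 hs hk hSfin hz, h3] at h6
  have h7 : 4 ≤ (fieldCore F).relIndex (H.comap φ) := by
    by_contra hc
    have h8' : (fieldCore F).relIndex (H.comap φ) * H.index ≤ 3 * H.index :=
      Nat.mul_le_mul_right _ (by omega)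
    omega
  have h9 := hL _ h1 h7
  omega

theorem elem_field_sixteen (h2 : (2 : F) ≠ 0) (hfin : FinSq F) (hi : (fieldCore F).index ≤ 16) :
    ∃ S : QData, Elem S ∧ IsStructureOf F S := by
  obtain ⟨S, φ, r, hS, hSfin, hSq, hr, hk, hz, β, hb, -⟩ := field_data h2 hfin
  have hs : Function.Surjective φ := fun g => ⟨r g, hr g⟩
  refine ⟨S, elem_of_core_sixteen hSq hb ?_, hS⟩
  rwa [← core_index h2 hs hk hSfin hz]

/-- sums of quaternion algebras with a slot in the core -/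
theorem sum_field (h2 : (2 : F) ≠ 0) (hfin : FinSq F) (a a' : Fˣ) (ha : a ∈ fieldCore F)
    (ha' : a' ∈ fieldCore F) (x x' : Fˣ) :
    ∃ k ∈ Subgroup.closure {b : Fˣ | (normGroup b).index ≤ 2}, ∃ y : Fˣ,
      bq h2 k y = bq h2 a x + bq h2 a' x' := by
  obtain ⟨S, φ, r, hS, hSfin, hSq, hr, hk, hz, β, hb, hβ⟩ := field_data h2 hfin
  have hs : Function.Surjective φ := fun g => ⟨r g, hr g⟩
  have hcore := core_comap h2 hs hk hSfin hz
  rw [hcore] at ha ha'
  obtain ⟨k, hkI, y, e⟩ := sum_core hSq hb (φ a) (φ a') ha ha' (φ x) (φ x')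
  have hlift : ∀ k ∈ IdxGroup S, ∃ b ∈ Subgroup.closure {b : Fˣ | (normGroup b).index ≤ 2},
      φ b = k := by
    intro k hk'
    induction hk' using Subgroup.closure_induction with
    | mem c hc =>
      refine ⟨r c, Subgroup.subset_closure ?_, hr c⟩
      refine (index_two_iff hs hk hSfin hz (r c)).2 ?_
      rw [hr]
      exact hc
    | one => exact ⟨1, Subgroup.one_mem _, map_one φ⟩
    | mul c d _ _ hc hd =>
      obtain ⟨b, hb1, rfl⟩ := hc
      obtain ⟨b', hb1', rfl⟩ := hd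
      exact ⟨b * b', Subgroup.mul_mem _ hb1 hb1', map_mul φ b b'⟩
    | inv c _ hc =>
      obtain ⟨b, hb1, rfl⟩ := hc
      exact ⟨b⁻¹, Subgroup.inv_mem _ hb1, map_inv φ b⟩
  obtain ⟨b, hbI, rfl⟩ := hlift k hkI
  refine ⟨b, hbI, r y, ?_⟩
  rw [← hβ, ← hβ, ← hβ, hr]
  exact e

/-- `χ` is bimultiplicative on `W × F*` and vanishes if the second entry is a norm -/
def SymbolOn (W : Subgroup Fˣ) (χ : Fˣ → Fˣ → ZMod 2) : Prop :=
  (∀ a ∈ W, ∀ b ∈ W, ∀ c : Fˣ, χ (a * b) c = χ a c + χ b c) ∧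
  (∀ a ∈ W, ∀ b c : Fˣ, χ a (b * c) = χ a b + χ a c) ∧
  (∀ a ∈ W, ∀ b : Fˣ, (∃ x y : F, (b : F) = x ^ 2 - a * y ^ 2) → χ a b = 0)

theorem symbol_field (h2 : (2 : F) ≠ 0) (hfin : FinSq F) (e : Fˣ) (χ : Fˣ → Fˣ → ZMod 2)
    (hχ : SymbolOn (fieldCore F ⊔ Subgroup.zpowers e) χ) :
    ∃ l : B2 F →+ ZMod 2, ∀ a ∈ fieldCore F ⊔ Subgroup.zpowers e, ∀ b : Fˣ,
      l (bq h2 a b) = χ a b := by
  obtain ⟨S, φ, r, hS, hSfin, hSq, hr, hk, hz, β, hb, hβ⟩ := field_data h2 hfin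
  have hs : Function.Surjective φ := fun g => ⟨r g, hr g⟩
  have hcore := core_comap h2 hs hk hSfin hz
  set W := fieldCore F ⊔ Subgroup.zpowers e with hW
  obtain ⟨c1, c2, c3⟩ := hχ
  have h02 : ∀ u v : ZMod 2, u + v = 0 → u = v := by decide
  -- squares
  have hsqW : ∀ b : Fˣ, b ^ 2 ∈ W := by
    intro b
    refine Subgroup.mem_sup_left ?_
    rw [hcore]
    show φ (b ^ 2) ∈ Core S
    rw [(hk _).2 ⟨b, rfl⟩]
    exact (Core S).one_mem
  have hker : ∀ k : Fˣ, φ k = 1 → k ∈ W ∧ ∀ c, χ k c = 0 := by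
    intro k hk1
    obtain ⟨b, rfl⟩ := (hk k).1 hk1
    exact ⟨hsqW b, fun c => c3 _ (hsqW b) c (NormFrom.of_sq h2 (b ^ 2) c ⟨b, rfl⟩)⟩
  have hinv : ∀ a ∈ W, ∀ a' b b' : Fˣ, φ a = φ a' → φ b = φ b' → χ a b = χ a' b' := by
    intro a ha a' b b' h1 h3
    have e1 : φ (a⁻¹ * a') = 1 := by rw [map_mul, map_inv, h1, inv_mul_cancel]
    have e2 : φ (b⁻¹ * b') = 1 := by rw [map_mul, map_inv, h3, inv_mul_cancel]
    obtain ⟨k1, k2⟩ := hker _ e1
    have e3 : χ a' b' = χ a b' := by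
      have := c1 a ha _ k1 b'
      rw [mul_inv_cancel_left, k2, add_zero] at this
      exact this
    have e4 : χ a b' = χ a b := by
      have := c2 a ha b (b⁻¹ * b')
      obtain ⟨c, hc⟩ := (hk _).1 e2
      rw [mul_inv_cancel_left, c3 a ha (b⁻¹ * b') (by
        rw [hc]
        exact NormFrom.sq a c), add_zero] at this
      exact this
    rw [e3, e4]
  have hmemW : ∀ a : Fˣ, φ a ∈ Core S ⊔ Subgroup.zpowers (φ e) → a ∈ W := by
    intro a ha
    rcases mem_sup_z hSq ha with h1 | h1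
    · refine Subgroup.mem_sup_left ?_
      rw [hcore]
      exact h1
    · have h3 : a * e ∈ fieldCore F := by
        rw [hcore]
        show φ (a * e) ∈ Core S
        rw [map_mul]
        exact h1
      have h4 : a = a * e * e⁻¹ := by rw [mul_inv_cancel_right]
      rw [h4]
      exact Subgroup.mul_mem_sup h3 (Subgroup.inv_mem _ (Subgroup.mem_zpowers e))
  have hmemS : ∀ a ∈ W, φ a ∈ Core S ⊔ Subgroup.zpowers (φ e) := by
    intro a ha
    obtain ⟨c, hc, z, hz', rfl⟩ := Subgroup.mem_sup.1 ha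
    obtain ⟨n, rfl⟩ := Subgroup.mem_zpowers_iff.1 hz'
    rw [map_mul, map_zpow]
    rw [hcore] at hc
    exact Subgroup.mul_mem_sup hc (Subgroup.zpow_mem_zpowers _ n)
  have hSy : Sy S (Core S ⊔ Subgroup.zpowers (φ e)) (fun g g' => χ (r g) (r g')) := by
    refine ⟨fun a ha b hb' c => ?_, fun a ha b c => ?_, fun a ha b h0 => ?_⟩
    · have ha' := hmemW (r a) (by rw [hr]; exact ha)
      have hb'' := hmemW (r b) (by rw [hr]; exact hb')
      show χ (r (a * b)) (r c) = χ (r a) (r c) + χ (r b) (r c)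
      rw [← c1 _ ha' _ hb'']
      refine (hinv _ (Subgroup.mul_mem _ ha' hb'') _ _ _ ?_ rfl).symm
      rw [map_mul, hr, hr, hr]
    · have ha' := hmemW (r a) (by rw [hr]; exact ha)
      show χ (r a) (r (b * c)) = χ (r a) (r b) + χ (r a) (r c)
      rw [← c2 _ ha']
      refine hinv _ ha' _ _ _ rfl ?_
      rw [map_mul, hr, hr, hr]
    · have ha' := hmemW (r a) (by rw [hr]; exact ha)
      refine c3 _ ha' _ ((hz _ _).1 ?_)
      rw [hr, hr]
      exact h0
  obtain ⟨l, hl⟩ := extend_core_one hSq hb (φ e) _ hSy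
  refine ⟨l, fun a ha b => ?_⟩
  rw [← hβ]
  refine (hl (φ a) (hmemS a ha) (φ b)).trans ?_
  exact (hinv a ha _ _ _ (hr _).symm (hr _).symm).symm

/-- sums of symbols of `K_2(F)/2` with a slot in the core -/
theorem sum_field_K2 (h2 : (2 : F) ≠ 0) (hfin : FinSq F) (a a' : Fˣ) (ha : a ∈ fieldCore F)
    (ha' : a' ∈ fieldCore F) (x x' : Fˣ) :
    ∃ k ∈ Subgroup.closure {b : Fˣ | (normGroup b).index ≤ 2}, ∃ y : Fˣ,
      sy k y = sy a x + sy a' x' := by
  obtain ⟨k, hk, y, e⟩ := sum_field h2 hfin a a' ha ha' x x'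
  refine ⟨k, hk, y, ?_⟩
  have hkC : k ∈ fieldCore F := by
    have h1 : Subgroup.closure {b : Fˣ | (normGroup b).index ≤ 2} ≤ fieldCore F := by
      rw [Subgroup.closure_le]
      intro b hb
      exact Subgroup.mem_sInf.2 fun L hL => hL.1 b hb
    exact h1 hk
  by_contra hne
  obtain ⟨p, -, hp⟩ := exists_char (⊥ : AddSubgroup (K2 F)) (fun t => by
    rw [K2_add_self]
    exact zero_mem _) (sy k y + (sy a x + sy a' x')) (fun hc => hne (by
      have h1 : sy k y + (sy a x + sy a' x') = 0 := hc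
      have h3 := K2_add_self (sy a x + sy a' x')
      exact add_right_cancel (h1.trans h3.symm)))
  have hsy : SymbolOn (fieldCore F ⊔ Subgroup.zpowers 1) (fun a b => p (sy a b)) :=
    ⟨fun a _ b _ c => by
      show p (sy (a * b) c) = p (sy a c) + p (sy b c)
      rw [sy_mul_left, map_add], fun a _ b c => by
      show p (sy a (b * c)) = p (sy a b) + p (sy a c)
      rw [sy_mul_right, map_add], fun a _ b hab => by
      show p (sy a b) = 0
      rw [sy_of_norm a b hab, map_zero]⟩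
  obtain ⟨l, hl⟩ := symbol_field h2 hfin 1 _ hsy
  apply hp
  have h1 : ∀ c ∈ fieldCore F, ∀ b, p (sy c b) = l (bq h2 c b) := fun c hc b =>
    (hl c (Subgroup.mem_sup_left hc) b).symm
  rw [map_add, map_add, h1 k hkC, h1 a ha, h1 a' ha', e, map_add]
  have z2 : ∀ w : ZMod 2, w + w = 0 := by decide
  exact z2 _

/-- symbols extend -/
theorem symbol_extend (h2 : (2 : F) ≠ 0) (hfin : FinSq F) (e : Fˣ) (χ : Fˣ → Fˣ → ZMod 2)
    (hχ : SymbolOn (fieldCore F ⊔ Subgroup.zpowers e) χ) :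
    ∃ χ' : Fˣ → Fˣ → ZMod 2, SymbolOn ⊤ χ' ∧
      ∀ a ∈ fieldCore F ⊔ Subgroup.zpowers e, ∀ b : Fˣ, χ' a b = χ a b := by
  obtain ⟨l, hl⟩ := symbol_field h2 hfin e χ hχ
  exact ⟨fun a b => l (bq h2 a b), ⟨fun a _ b _ c => by
      show l (bq h2 (a * b) c) = l (bq h2 a c) + l (bq h2 b c)
      rw [bq_mul_left, map_add], fun a _ b c => by
      show l (bq h2 a (b * c)) = l (bq h2 a b) + l (bq h2 a c)
      rw [bq_mul, map_add], fun a _ b hab => by
      show l (bq h2 a b) = 0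
      rw [(bq_eq_zero_iff h2 a b).2 hab, map_zero]⟩, hl⟩

end

end Pool.Agent.J6H42.CE
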