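import Pool.Agent.J6H42.CE.Ind
import Pool.Agent.J6H42.CE.Field

/-! Fields all of whose closed subgroups of index at least eight are generated by independent
elements. -/

set_option autoImplicit false

namespace Pool.Agent.J6H42.CE

open Pool.Agent.H315R3.ETC Pool.Agent.TH673.VG Pool.Agent.R19.QS Pool.Agent.TH188.ET
  Pool.Agent.TH188.ETF

universe u

/-- the elements of `A` are independent over the core `C`: for all `x_e ∈ F*` some `z` lies in all
the cosets `x_e N(e) C`, `e ∈ A` -/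
def IndepOver {F : Type u} [Field F] (A : Finset Fˣ) : Prop :=
  ∀ x : Fˣ → Fˣ, ∃ z : Fˣ, ∀ e ∈ A, (x e)⁻¹ * z ∈ normGroup e ⊔ fieldCore F

/-- `L` is the smallest closed subgroup which contains `A` -/
def GeneratedBy {F : Type u} [Field F] (L : Subgroup Fˣ) (A : Finset Fˣ) : Prop :=
  (∀ e ∈ A, e ∈ L) ∧ ∀ M : Subgroup Fˣ, NormClosed M → (∀ e ∈ A, e ∈ M) → L ≤ M

section
variable {F : Type u} [Field F]

theorem elem_field_ind (h2 : (2 : F) ≠ 0) (hfin : FinSq F)
    (hL : ∀ L : Subgroup Fˣ, NormClosed L → 8 ≤ L.index →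
      ∃ A : Finset Fˣ, GeneratedBy L A ∧ IndepOver A) :
    ∃ S : QData, Elem S ∧ IsStructureOf F S := by
  classical
  obtain ⟨S, φ, r, hS, hSfin, hSq, hr, hk, hz, β, hb, -⟩ := field_data h2 hfin
  have hs : Function.Surjective φ := fun g => ⟨r g, hr g⟩
  have hcore := core_comap h2 hs hk hSfin hz
  refine ⟨S, elem_of_ind hSq hb fun H hH h8 => ?_, hS⟩
  have h1 := closed_comap hs hk hSfin hz hH
  have h3 : (H.comap φ).index = H.index := Subgroup.index_comap_of_surjective _ hs
  obtain ⟨A, ⟨hA, hmin⟩, hI⟩ := hL _ h1 (by rw [h3]; exact h8)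
  refine ⟨A.image φ, fun e he => ?_, fun M hM hAM => ?_, fun x => ?_⟩
  · obtain ⟨a, ha, rfl⟩ := Finset.mem_image.1 he
    exact hA a ha
  · have h4 := hmin (M.comap φ) (closed_comap hs hk hSfin hz hM)
      (fun a ha => hAM _ (Finset.mem_image_of_mem φ ha))
    intro g hg
    obtain ⟨a, rfl⟩ := hs g
    exact h4 hg
  · obtain ⟨z, hz0⟩ := hI (fun a => r (x (φ a)))
    refine ⟨φ z, fun e he => ?_⟩
    obtain ⟨a, ha, rfl⟩ := Finset.mem_image.1 he
    obtain ⟨v, hv, c, hc, e1⟩ := Subgroup.mem_sup.1 (hz0 a ha)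
    have e2 : φ v * φ c = x (φ a) * φ z := by
      rw [← map_mul, e1, map_mul, map_inv, hr, inv_self' hSq]
    rw [← e2]
    refine Subgroup.mul_mem_sup ?_ ?_
    · show S.q (φ a) (φ v) = S.zero
      exact (hz a v).2 hv
    · rw [hcore] at hc
      exact hc

lemma ind_single (e : Fˣ) : IndepOver {e} := by
  intro x
  refine ⟨x e, fun e' he' => ?_⟩
  rw [Finset.mem_singleton.1 he', inv_mul_cancel]
  exact Subgroup.one_mem _

end

end Pool.Agent.J6H42.CE
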