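import Pool.Agent.J6H42.CE.Cyc

/-! Closed subgroups generated by independent elements. -/

set_option autoImplicit false

namespace Pool.Agent.J6H42.CE

open Pool.Agent.H315R3.ETC Pool.Agent.TH673.VG Pool.Agent.R19.QS

/-- the elements of `A` are independent over the core: the cosets of the groups `V(e) C`, `e ∈ A`,
always meet -/
def Indep {S : QData} (h : IsQuat S) (A : Finset S.G) : Prop :=
  ∀ x : S.G → S.G, ∃ z : S.G, ∀ e ∈ A, x e * z ∈ D h e ⊔ Core S

section
variable {S : QData} (h : IsQuat S) {B : Type*} [AddCommGroup B] {β : S.G → S.G → B}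
  (hb : Br S β)

include h hb in
lemma agree_of_closed' {H : Subgroup S.G} (hH : Closed S H) {χ : S.G → S.G → ZMod 2}
    (hχ : Sy S H χ) (l : B →+ ZMod 2) {A : Finset S.G} (hA : ∀ e ∈ A, e ∈ H)
    (hmin : ∀ L : Subgroup S.G, Closed S L → (∀ e ∈ A, e ∈ L) → H ≤ L)
    (hC : ∀ a ∈ Core S, ∀ b, l (β a b) = χ a b) (hE : ∀ e ∈ A, ∀ b, l (β e b) = χ e b) :
    ∀ a ∈ H, ∀ b, l (β a b) = χ a b := by
  let L : Subgroup S.G :=
    { carrier := {a | a ∈ H ∧ ∀ b, l (β a b) = χ a b}
      one_mem' := ⟨H.one_mem, fun b => by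
        rw [b_comm h hb, b_one hb, map_zero, hχ.2.2 1 H.one_mem b (q_one' h b)]⟩
      mul_mem' := by
        rintro a a' ⟨h1, h2⟩ ⟨h3, h4⟩
        refine ⟨H.mul_mem h1 h3, fun b => ?_⟩
        rw [b_add_left h hb, map_add, h2, h4, hχ.1 a h1 a' h3]
      inv_mem' := by
        rintro a ha
        rw [inv_self' h]
        exact ha }
  have hL : Closed S L := by
    refine ⟨fun a ha => ⟨hH.1 a ha, fun b => hC a (core_closed.1 a ha) b⟩, fun a ha => ?_⟩
    have haH : a ∈ H := by
      refine hH.2 a fun x => ?_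
      obtain ⟨v, k, hv, hk, e⟩ := ha x
      exact ⟨v, k, hv, hk.1, e⟩
    refine ⟨haH, fun b => ?_⟩
    obtain ⟨v, k, hv, hk, rfl⟩ := ha b
    rw [hb.add, map_add, (b_zero_iff h hb a v).2 hv, map_zero, zero_add, hχ.2.1 a haH,
      hχ.2.2 a haH v hv, zero_add, b_comm h hb a k, hk.2 a]
    exact sy_eq h hχ hk.1 haH (h.qs2 k a)
  intro a ha
  exact (hmin L hL (fun e he => ⟨hA e he, hE e he⟩) ha).2

include h hb in
/-- symbols on closed subgroups generated by independent elements come from functionals -/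
theorem extend_ind {H : Subgroup S.G} (hH : Closed S H) {A : Finset S.G} (hA : ∀ e ∈ A, e ∈ H)
    (hmin : ∀ L : Subgroup S.G, Closed S L → (∀ e ∈ A, e ∈ L) → H ≤ L) (hI : Indep h A)
    {χ : S.G → S.G → ZMod 2} (hχ : Sy S H χ) :
    ∃ l : B →+ ZMod 2, ∀ a ∈ H, ∀ b, l (β a b) = χ a b := by
  classical
  have hCH : Core S ≤ H := sInf_le hH
  have z2 : ∀ w : ZMod 2, w + w = 0 := by decide
  obtain ⟨l, hl⟩ := extend_core h hb χ ⟨fun a ha b hb => hχ.1 a (hCH ha) b (hCH hb),
    fun a ha => hχ.2.1 a (hCH ha), fun a ha => hχ.2.2 a (hCH ha)⟩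
  -- the difference
  obtain ⟨s1, s2, s3⟩ := sy_of_hom h hb l
  have hχ1 : Sy S H (fun a b => χ a b + l (β a b)) := by
    refine ⟨fun a ha b hb' c => ?_, fun a ha b c => ?_, fun a ha b h0 => ?_⟩
    · show χ (a * b) c + l (β (a * b) c) = (χ a c + l (β a c)) + (χ b c + l (β b c))
      rw [hχ.1 a ha b hb' c, b_add_left h hb, map_add]
      ring
    · show χ a (b * c) + l (β a (b * c)) = (χ a b + l (β a b)) + (χ a c + l (β a c))
      rw [hχ.2.1 a ha, hb.add, map_add]
      ring
    · show χ a b + l (β a b) = 0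
      rw [hχ.2.2 a ha b h0, (b_zero_iff h hb a b).2 h0, map_zero, add_zero]
  set χ1 : S.G → S.G → ZMod 2 := fun a b => χ a b + l (β a b) with hχ1d
  have hv : ∀ c ∈ Core S, ∀ b, χ1 c b = 0 := by
    intro c hc b
    show χ c b + l (β c b) = 0
    rw [hl c hc, z2]
  have hv' : ∀ e ∈ H, ∀ c ∈ Core S, χ1 e c = 0 := by
    intro e he c hc
    rw [sy_eq h hχ1 he (hCH hc) (h.qs2 e c)]
    exact hv c hc e
  have hone : ∀ a ∈ H, χ1 a 1 = 0 := fun a ha => hχ1.2.2 a ha 1 (q_one h a)
  let f : (S.G → Additive S.G) × BC h hb →+ B :=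
    { toFun := fun p => ∑ e ∈ A, β e (p.1 e).toMul + p.2
      map_zero' := by
        have : ∑ e ∈ A, β e ((0 : S.G → Additive S.G) e).toMul = 0 :=
          Finset.sum_eq_zero fun e _ => b_one hb e
        show ∑ e ∈ A, β e ((0 : S.G → Additive S.G) e).toMul + ((0 : BC h hb) : B) = 0
        rw [this]
        exact add_zero 0
      map_add' := by
        rintro ⟨x, z⟩ ⟨y, w⟩
        show ∑ e ∈ A, β e ((x e).toMul * (y e).toMul) + ((z : B) + w) =
          (∑ e ∈ A, β e (x e).toMul + z) + (∑ e ∈ A, β e (y e).toMul + w)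
        rw [Finset.sum_congr rfl (fun e _ => hb.add e (x e).toMul (y e).toMul),
          Finset.sum_add_distrib, add_add_add_comm] }
  let g : (S.G → Additive S.G) × BC h hb →+ ZMod 2 :=
    { toFun := fun p => ∑ e ∈ A, χ1 e (p.1 e).toMul
      map_zero' := Finset.sum_eq_zero fun e he => hone e (hA e he)
      map_add' := by
        rintro ⟨x, z⟩ ⟨y, w⟩
        show ∑ e ∈ A, χ1 e ((x e).toMul * (y e).toMul) =
          ∑ e ∈ A, χ1 e (x e).toMul + ∑ e ∈ A, χ1 e (y e).toMul
        rw [← Finset.sum_add_distrib]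
        exact Finset.sum_congr rfl (fun e he => hχ1.2.1 e (hA e he) _ _) }
  obtain ⟨k, hk⟩ := Pool.Agent.TH188.ET.exists_factor hb.two f g (by
    rintro ⟨x, ⟨z, c, hc, y, hz⟩⟩ h0
    have h1 : ∑ e ∈ A, β e (x e).toMul + z = 0 := h0
    show ∑ e ∈ A, χ1 e (x e).toMul = 0
    obtain ⟨z0, hz0⟩ := hI (fun e => (x e).toMul)
    -- decompose
    have hdec : ∀ e ∈ A, ∃ c ∈ Core S, β e (x e).toMul = β e z0 + β c e ∧
        χ1 e (x e).toMul = χ1 e z0 := by
      intro e he
      obtain ⟨v, hv0, c, hc, ec⟩ := Subgroup.mem_sup.1 (hz0 e he)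
      have e1 : (x e).toMul = z0 * (v * c) := by
        rw [ec, mul_comm ((x e).toMul), ← mul_assoc, h.exp2, one_mul]
      refine ⟨c, hc, ?_, ?_⟩
      · rw [e1, hb.add, hb.add, (b_zero_iff h hb e v).2 hv0, zero_add, b_comm h hb e c]
      · rw [e1, hχ1.2.1 e (hA e he), hχ1.2.1 e (hA e he), hχ1.2.2 e (hA e he) v hv0,
          hv' e (hA e he) c hc, add_zero, add_zero]
    have hsum : ∃ c ∈ Core S, ∃ y, ∑ e ∈ A, β e (x e).toMul = β (∏ e ∈ A, e) z0 + β c y := by
      have key : ∀ A' : Finset S.G, A' ⊆ A → ∃ c ∈ Core S, ∃ y,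
          ∑ e ∈ A', β e (x e).toMul = ∑ e ∈ A', β e z0 + β c y := by
        intro A'
        induction A' using Finset.induction_on with
        | empty => exact fun _ => ⟨1, (Core S).one_mem, 1, by
            rw [Finset.sum_empty, Finset.sum_empty, b_one hb, add_zero]⟩
        | insert s A' hs ih =>
          intro hA'
          obtain ⟨c, hc, y, e1⟩ := ih ((Finset.subset_insert s A').trans hA')
          obtain ⟨c', hc', e2, -⟩ := hdec s (hA' (Finset.mem_insert_self s A'))
          obtain ⟨d, hd, w, e3⟩ := sum_core h hb c' c hc' hc s y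
          refine ⟨d, idx_le_core hd, w, ?_⟩
          rw [Finset.sum_insert hs, Finset.sum_insert hs, e1, e2, e3, add_add_add_comm]
      obtain ⟨c, hc, y, e1⟩ := key A subset_rfl
      refine ⟨c, hc, y, ?_⟩
      rw [e1, b_prod h hb A (fun e => e) z0]
    obtain ⟨c', hc', y', e1⟩ := hsum
    obtain ⟨d, hd, w, e3⟩ := sum_core h hb c' c hc' hc y' y
    have hdC := idx_le_core hd
    have hPH : ∏ e ∈ A, e ∈ H := H.prod_mem hA
    have e4 : β (∏ e ∈ A, e) z0 = β d w := by
      rw [e1] at h1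
      have h2 : β (∏ e ∈ A, e) z0 + β d w = 0 := by
        rw [e3, hz, ← add_assoc]
        exact h1
      exact add_right_cancel (h2.trans (hb.two (β d w)).symm)
    have e5 : χ1 (∏ e ∈ A, e) z0 = χ1 d w :=
      sy_eq h hχ1 hPH (hCH hdC) ((hb.eq _ _ _ _).1 e4)
    rw [hv d hdC w, sy_prod hχ1 h A (fun e => e) hA z0] at e5
    rw [← e5]
    refine Finset.sum_congr rfl fun e he => ?_
    obtain ⟨-, -, -, e6⟩ := hdec e he
    exact e6)
  have k1 : ∀ e ∈ A, ∀ b, k (β e b) = χ1 e b := by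
    intro e he b
    have := hk (Pi.single e (Additive.ofMul b), 0)
    have h2 : f (Pi.single e (Additive.ofMul b), 0) = β e b := by
      show ∑ e' ∈ A, β e' ((Pi.single e (Additive.ofMul b) : S.G → Additive S.G) e').toMul +
        ((0 : BC h hb) : B) = β e b
      rw [Finset.sum_eq_single_of_mem e he]
      · rw [Pi.single_eq_same]
        exact add_zero _
      · intro e' _ hne
        rw [Pi.single_eq_of_ne hne]
        exact b_one hb e'
    have h3 : g (Pi.single e (Additive.ofMul b), 0) = χ1 e b := by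
      show ∑ e' ∈ A, χ1 e' ((Pi.single e (Additive.ofMul b) : S.G → Additive S.G) e').toMul = _
      rw [Finset.sum_eq_single_of_mem e he]
      · rw [Pi.single_eq_same]
        rfl
      · intro e' he' hne
        rw [Pi.single_eq_of_ne hne]
        exact hone e' (hA e' he')
    rw [h2, h3] at this
    exact this
  have k2 : ∀ c ∈ Core S, ∀ b, k (β c b) = 0 := by
    intro c hc b
    have := hk (0, ⟨β c b, c, hc, b, rfl⟩)
    have h2 : f (0, ⟨β c b, c, hc, b, rfl⟩) = β c b := by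
      show ∑ e ∈ A, β e ((0 : S.G → Additive S.G) e).toMul + β c b = β c b
      have h9 : ∑ e ∈ A, β e ((0 : S.G → Additive S.G) e).toMul = 0 :=
        Finset.sum_eq_zero fun e _ => b_one hb e
      rw [h9, zero_add]
    have h3 : g (0, ⟨β c b, c, hc, b, rfl⟩) = 0 :=
      Finset.sum_eq_zero fun e he => hone e (hA e he)
    rw [h2, h3] at this
    exact this
  refine ⟨l + k, agree_of_closed' h hb hH hχ (l + k) hA hmin (fun a ha b => ?_)
    fun e he b => ?_⟩
  · rw [AddMonoidHom.add_apply, k2 a ha, add_zero, hl a ha]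
  · rw [AddMonoidHom.add_apply, k1 e he]
    show l (β e b) + (χ e b + l (β e b)) = χ e b
    linear_combination z2 (l (β e b))

variable [Finite S.G]

include h hb in
/-- elementary type, if every closed subgroup of index at least eight is generated by independent
elements -/
theorem elem_of_ind (hM : ∀ H : Subgroup S.G, Closed S H → 8 ≤ H.index →
    ∃ A : Finset S.G, (∀ e ∈ A, e ∈ H) ∧
      (∀ L : Subgroup S.G, Closed S L → (∀ e ∈ A, e ∈ L) → H ≤ L) ∧ Indep h A) : Elem S := by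
  refine elem_of_closed h fun H hcl h8 χ hχ => ?_
  obtain ⟨A, hA, hmin, hI⟩ := hM H hcl h8
  obtain ⟨l, hl⟩ := extend_ind h hb hcl hA hmin hI hχ
  obtain ⟨a, ha⟩ := exists_out h8
  obtain ⟨s1, s2, s3⟩ := sy_of_hom h hb l
  exact ⟨a, ha, fun a b => l (β a b), ⟨fun a _ b _ => s1 a trivial b trivial,
    fun a _ => s2 a trivial, fun a _ => s3 a trivial⟩, hl⟩

omit [Finite S.G] in
lemma indep_single (e : S.G) : Indep h {e} := by
  intro x
  refine ⟨x e, fun e' he' => ?_⟩
  rw [Finset.mem_singleton.1 he', h.exp2]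
  exact Subgroup.one_mem _

end

end Pool.Agent.J6H42.CE
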