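import Mathlib

/-! Systems of equations over the field with two elements. -/

set_option autoImplicit false

namespace Pool.Agent.J6H42.CE

open Finset

variable {G ι : Type*} [Group G] [DecidableEq ι]

private lemma zz (u : ZMod 2) : u + u = 0 := CharTwo.add_self_eq_zero u

private lemma cases2 (u : ZMod 2) : u = 0 ∨ u = 1 := by
  revert u; decide

/-- a functional vanishing on the common kernel is a sum of some of the functionals -/
lemma span_of_ker (f : ι → G → ZMod 2) (hf : ∀ t x y, f t (x * y) = f t x + f t y)
    (A : Finset ι) : ∀ φ : G → ZMod 2, (∀ x y, φ (x * y) = φ x + φ y) →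
      (∀ y, (∀ t ∈ A, f t y = 0) → φ y = 0) → ∃ R ⊆ A, ∀ x, φ x = ∑ t ∈ R, f t x := by
  induction A using Finset.induction_on with
  | empty =>
    intro φ _ h0
    exact ⟨∅, subset_rfl, fun x => by
      rw [h0 x (fun t ht => absurd ht (Finset.notMem_empty t)), Finset.sum_empty]⟩
  | insert s A hs ih =>
    intro φ hφ h0
    by_cases h1 : ∀ y, (∀ t ∈ A, f t y = 0) → φ y = 0
    · obtain ⟨R, hR, e⟩ := ih φ hφ h1
      exact ⟨R, hR.trans (Finset.subset_insert s A), e⟩
    · push Not at h1
      obtain ⟨y0, hy0, hφ0⟩ := h1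
      have hs0 : f s y0 = 1 := by
        rcases cases2 (f s y0) with h | h
        · exact absurd (h0 y0 (fun t ht => by
            rcases Finset.mem_insert.1 ht with rfl | ht
            · exact h
            · exact hy0 t ht)) hφ0
        · exact h
      have hφ1 : φ y0 = 1 := (cases2 _).resolve_left hφ0
      obtain ⟨R, hR, e⟩ := ih (fun x => φ x + f s x) (fun x y => by
        show φ (x * y) + f s (x * y) = (φ x + f s x) + (φ y + f s y)
        rw [hφ, hf]; ring) (fun y hy => by
          show φ y + f s y = 0
          rcases cases2 (f s y) with h | h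
          · rw [h, add_zero]
            refine h0 y fun t ht => ?_
            rcases Finset.mem_insert.1 ht with rfl | ht
            · exact h
            · exact hy t ht
          · have h3 : φ (y * y0) = 0 := by
              refine h0 _ fun t ht => ?_
              rw [hf]
              rcases Finset.mem_insert.1 ht with rfl | ht
              · rw [h, hs0, zz]
              · rw [hy t ht, hy0 t ht, add_zero]
            rw [hφ, hφ1] at h3
            rw [h, h3])
      refine ⟨insert s R, Finset.insert_subset_insert s hR, fun x => ?_⟩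
      rw [Finset.sum_insert (fun hc => hs (hR hc)), ← e x]
      have := zz (f s x)
      linear_combination (-1 : ZMod 2) * this

/-- solvability of a system of equations -/
lemma solve (f : ι → G → ZMod 2) (hf : ∀ t x y, f t (x * y) = f t x + f t y)
    (A : Finset ι) : ∀ c : ι → ZMod 2,
      (∀ R ⊆ A, (∀ x, ∑ t ∈ R, f t x = 0) → ∑ t ∈ R, c t = 0) → ∃ x, ∀ t ∈ A, f t x = c t := by
  induction A using Finset.induction_on with
  | empty => exact fun c _ => ⟨1, fun t ht => absurd ht (Finset.notMem_empty t)⟩
  | insert s A hs ih =>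
    intro c hc
    obtain ⟨x0, hx0⟩ := ih c (fun R hR => hc R (hR.trans (Finset.subset_insert s A)))
    by_cases h1 : ∀ y, (∀ t ∈ A, f t y = 0) → f s y = 0
    · obtain ⟨R, hR, e⟩ := span_of_ker f hf A (f s) (hf s) h1
      have hsR : s ∉ R := fun hc => hs (hR hc)
      have h2 := hc (insert s R) (Finset.insert_subset_insert s hR) (fun x => by
        rw [Finset.sum_insert hsR, ← e x, zz])
      rw [Finset.sum_insert hsR] at h2
      refine ⟨x0, fun t ht => ?_⟩
      rcases Finset.mem_insert.1 ht with rfl | ht
      · rw [e x0, Finset.sum_congr rfl (fun i hi => hx0 i (hR hi))]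
        exact (CharTwo.add_eq_zero.1 h2).symm
      · exact hx0 t ht
    · push Not at h1
      obtain ⟨y, hy, hsy⟩ := h1
      have hsy1 : f s y = 1 := (cases2 _).resolve_left hsy
      by_cases h2 : f s x0 = c s
      · refine ⟨x0, fun t ht => ?_⟩
        rcases Finset.mem_insert.1 ht with rfl | ht
        · exact h2
        · exact hx0 t ht
      · refine ⟨x0 * y, fun t ht => ?_⟩
        rw [hf]
        rcases Finset.mem_insert.1 ht with rfl | ht
        · rw [hsy1]
          have : ∀ u v : ZMod 2, u ≠ v → u + 1 = v := by decide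
          exact this _ _ h2
        · rw [hx0 t ht, hy t ht, add_zero]

/-- a system of equations `f t = 1` has a solution, or there is a minimal odd relation; any
proper subset of the minimal odd relation consists of independent functionals -/
lemma solve_or (f : ι → G → ZMod 2) (hf : ∀ t x y, f t (x * y) = f t x + f t y)
    (A : Finset ι) : (∃ x, ∀ t ∈ A, f t x = 1) ∨
      ∃ Z ⊆ A, (∀ x, ∑ t ∈ Z, f t x = 0) ∧ Odd Z.card ∧
        ∀ Y, Y ⊂ Z → ∀ c : ι → ZMod 2, ∃ x, ∀ t ∈ Y, f t x = c t := by
  classical
  by_cases h0 : ∃ Z ⊆ A, (∀ x, ∑ t ∈ Z, f t x = 0) ∧ Odd Z.card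
  · right
    obtain ⟨Z, hZ, hmin⟩ := exists_min_image (s := A.powerset.filter
      (fun Z => (∀ x, ∑ t ∈ Z, f t x = 0) ∧ Odd Z.card)) (fun Z => Z.card) (by
        obtain ⟨Z, h1, h2⟩ := h0
        exact ⟨Z, Finset.mem_filter.2 ⟨Finset.mem_powerset.2 h1, h2⟩⟩)
    rw [Finset.mem_filter, Finset.mem_powerset] at hZ
    obtain ⟨hZA, hZ0, hZo⟩ := hZ
    refine ⟨Z, hZA, hZ0, hZo, fun Y hY c => solve f hf Y c fun R hR h1 => ?_⟩
    have hRZ : R ⊂ Z := lt_of_le_of_lt hR hY
    have hlt := Finset.card_lt_card hRZ
    rcases Nat.even_or_odd R.card with he | ho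
    · by_cases hRe : R = ∅
      · rw [hRe, Finset.sum_empty]
      exfalso
      have hcard : (Z \ R).card + R.card = Z.card := Finset.card_sdiff_add_card_eq_card hRZ.subset
      have hpos : 0 < R.card := Finset.card_pos.2 (Finset.nonempty_iff_ne_empty.2 hRe)
      have h3 := hmin (Z \ R) (Finset.mem_filter.2 ⟨Finset.mem_powerset.2
        (Finset.sdiff_subset.trans hZA), fun x => by
          have h4 := Finset.sum_sdiff (f := fun t => f t x) hRZ.subset
          rw [h1 x, hZ0 x, add_zero] at h4
          exact h4, by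
          rcases hZo with ⟨m, hm⟩
          rcases he with ⟨n, hn⟩
          exact ⟨m - n, by omega⟩⟩)
      omega
    · exfalso
      have h3 := hmin R (Finset.mem_filter.2 ⟨Finset.mem_powerset.2
        (hRZ.subset.trans hZA), h1, ho⟩)
      omega
  · left
    refine solve f hf A (fun _ => 1) fun R hR h1 => ?_
    have h2 : ¬ Odd R.card := fun ho => h0 ⟨R, hR, h1, ho⟩
    rw [Finset.sum_const, nsmul_eq_mul, mul_one]
    exact (ZMod.natCast_eq_zero_iff_even).2 (Nat.not_odd_iff_even.1 h2)

end Pool.Agent.J6H42.CE
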