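import Pool.Agent.J6H42.CE.Ext

/-! Symbols on the subgroup generated by the core and one element. -/

set_option autoImplicit false

namespace Pool.Agent.J6H42.CE

open Pool.Agent.H315R3.ETC Pool.Agent.TH673.VG Pool.Agent.R19.QS

section
variable {S : QData} (h : IsQuat S) {B : Type*} [AddCommGroup B] {β : S.G → S.G → B}
  (hb : Br S β)

/-- the quaternions with a slot in the core -/
def BC : AddSubgroup B where
  carrier := {b | ∃ k ∈ Core S, ∃ y, β k y = b}
  zero_mem' := ⟨1, (Core S).one_mem, 1, b_one hb 1⟩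
  add_mem' := by
    rintro _ _ ⟨k, hk, y, rfl⟩ ⟨k', hk', y', rfl⟩
    obtain ⟨l, hl, z, e⟩ := sum_core h hb k k' hk hk' y y'
    exact ⟨l, idx_le_core hl, z, e⟩
  neg_mem' := by
    rintro _ ⟨k, hk, y, rfl⟩
    exact ⟨k, hk, y, eq_neg_of_add_eq_zero_left (hb.two _)⟩

include h hb in
/-- symbols on the subgroup generated by the core and one element come from functionals -/
theorem extend_core_one (e : S.G) (χ : S.G → S.G → ZMod 2)
    (hχ : Sy S (Core S ⊔ Subgroup.zpowers e) χ) :
    ∃ l : B →+ ZMod 2, ∀ a ∈ Core S ⊔ Subgroup.zpowers e, ∀ b, l (β a b) = χ a b := by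
  classical
  set H := Core S ⊔ Subgroup.zpowers e with he
  have hCH : Core S ≤ H := le_sup_left
  have heH : e ∈ H := Subgroup.mem_sup_right (Subgroup.mem_zpowers e)
  have z2 : ∀ w : ZMod 2, w + w = 0 := by decide
  obtain ⟨l, hl⟩ := extend_core h hb χ ⟨fun a ha b hb => hχ.1 a (hCH ha) b (hCH hb),
    fun a ha => hχ.2.1 a (hCH ha), fun a ha => hχ.2.2 a (hCH ha)⟩
  -- the difference vanishes on the core
  have hφ : ∀ x y : S.G, χ e (x * y) + l (β e (x * y)) =
      (χ e x + l (β e x)) + (χ e y + l (β e y)) := by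
    intro x y
    rw [hχ.2.1 e heH, hb.add, map_add]
    ring
  have hφ1 : χ e 1 + l (β e 1) = 0 := by
    have := hφ 1 1
    rw [mul_one] at this
    exact left_eq_add.1 this
  let f : Additive S.G × BC h hb →+ B :=
    { toFun := fun p => β e p.1.toMul + p.2
      map_zero' := by
        show β e 1 + 0 = 0
        rw [b_one hb, add_zero]
      map_add' := by
        rintro ⟨x, z⟩ ⟨y, w⟩
        show β e (x.toMul * y.toMul) + ((z : B) + w) = (β e x.toMul + z) + (β e y.toMul + w)
        rw [hb.add, add_add_add_comm] }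
  let g : Additive S.G × BC h hb →+ ZMod 2 :=
    { toFun := fun p => χ e p.1.toMul + l (β e p.1.toMul)
      map_zero' := hφ1
      map_add' := by
        rintro ⟨x, z⟩ ⟨y, w⟩
        exact hφ _ _ }
  obtain ⟨k, hk⟩ := Pool.Agent.TH188.ET.exists_factor hb.two f g (by
    rintro ⟨x, ⟨z, c, hc, y, hz⟩⟩ h0
    have h1 : β e x.toMul + z = 0 := h0
    show χ e x.toMul + l (β e x.toMul) = 0
    have e4 : β e x.toMul = β c y := by
      rw [hz]
      have := hb.two z
      exact add_right_cancel (h1.trans this.symm)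
    have e5 : χ e x.toMul = χ c y := sy_eq h hχ heH (hCH hc) ((hb.eq _ _ _ _).1 e4)
    rw [e4, e5, hl c hc, z2])
  have k1 : ∀ b, k (β e b) = χ e b + l (β e b) := by
    intro b
    have := hk (Additive.ofMul b, 0)
    have h2 : f (Additive.ofMul b, 0) = β e b := by
      show β e b + 0 = β e b
      rw [add_zero]
    rw [h2] at this
    exact this
  have k2 : ∀ c ∈ Core S, ∀ b, k (β c b) = 0 := by
    intro c hc b
    have := hk (0, ⟨β c b, c, hc, b, rfl⟩)
    have h2 : f (0, ⟨β c b, c, hc, b, rfl⟩) = β c b := by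
      show β e 1 + β c b = β c b
      rw [b_one hb, zero_add]
    rw [h2] at this
    exact this.trans hφ1
  refine ⟨l + k, ?_⟩
  have hC : ∀ a ∈ Core S, ∀ b, (l + k) (β a b) = χ a b := by
    intro a ha b
    rw [AddMonoidHom.add_apply, k2 a ha, add_zero, hl a ha]
  have hE : ∀ b, (l + k) (β e b) = χ e b := by
    intro b
    rw [AddMonoidHom.add_apply, k1]
    linear_combination z2 (l (β e b))
  intro a ha b
  have ha' := ha
  rw [he] at ha'
  rcases mem_sup_z h ha' with h1 | h1
  · exact hC a h1 b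
  · have h2 := hC (a * e) h1 b
    rw [b_add_left h hb, map_add, hE, hχ.1 a ha e heH] at h2
    exact add_right_cancel h2

end

end Pool.Agent.J6H42.CE
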