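import Pool.Agent.J6H42.CE.Lin
import Pool.Agent.R19.QS.Ext
import Pool.Agent.TH188.ET.K2

/-! Symbols on the core extend, if the quaternions lie in a group of exponent two. -/

set_option autoImplicit false

namespace Pool.Agent.J6H42.CE

open Pool.Agent.H315R3.ETC Pool.Agent.TH673.VG Pool.Agent.R19.QS

/-- a bilinear map into a group of exponent two which has the same fibres as `q` -/
structure Br (S : QData) {B : Type*} [AddCommGroup B] (β : S.G → S.G → B) : Prop where
  add : ∀ a x y, β a (x * y) = β a x + β a y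
  eq : ∀ a b c d, β a b = β c d ↔ S.q a b = S.q c d
  two : ∀ b : B, b + b = 0

section
variable {S : QData} (h : IsQuat S) {B : Type*} [AddCommGroup B] {β : S.G → S.G → B}
  (hb : Br S β)

include hb in
lemma b_one (a : S.G) : β a 1 = 0 := by
  have h1 := hb.add a 1 1
  rw [mul_one] at h1
  exact left_eq_add.1 h1

include h hb in
lemma b_comm (a b : S.G) : β a b = β b a := (hb.eq _ _ _ _).2 (h.qs2 a b)

include h hb in
lemma b_add_left (a b x : S.G) : β (a * b) x = β a x + β b x := by
  rw [b_comm h hb, hb.add, b_comm h hb x a, b_comm h hb x b]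

include h hb in
lemma b_zero_iff (a b : S.G) : β a b = 0 ↔ S.q a b = S.zero := by
  rw [← b_one hb a, hb.eq, q_one h]

include h hb in
lemma b_prod {ι : Type*} (A : Finset ι) (g : ι → S.G) (x : S.G) :
    β (∏ t ∈ A, g t) x = ∑ t ∈ A, β (g t) x := by
  classical
  induction A using Finset.induction_on with
  | empty =>
    rw [Finset.prod_empty, Finset.sum_empty, b_comm h hb, b_one hb]
  | insert s A hs ih =>
    rw [Finset.prod_insert hs, Finset.sum_insert hs, b_add_left h hb, ih]

/-- the quaternion `t ≠ 0` is the value of an element all of whose quaternions are `0` or `t` -/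
def Good (t : S.Q) : Prop := t ≠ S.zero ∧ ∃ p : S.G × S.G, p.1 ∈ GT h t ∧ S.q p.1 p.2 = t

open Classical in
/-- the functional of a good quaternion -/
noncomputable def fn (g : S.Q → S.G) (t : S.Q) (x : S.G) : ZMod 2 :=
  if Good h t ∧ S.q (g t) x ≠ S.zero then 1 else 0

lemma fn_one {g : S.Q → S.G} {t : S.Q} (hg : g t ∈ GT h t) {x : S.G}
    (h1 : fn h g t x = 1) : S.q (g t) x = t := by
  unfold fn at h1
  split_ifs at h1 with h2
  · exact (hg x).resolve_left h2.2
  · exact absurd h1 zero_ne_one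

lemma fn_ne {g : S.Q → S.G} {t : S.Q} (ht : Good h t) {x : S.G}
    (h1 : ¬ fn h g t x = 1) : S.q (g t) x = S.zero := by
  unfold fn at h1
  split_ifs at h1 with h2
  · exact absurd rfl h1
  · by_contra hc
    exact h2 ⟨ht, hc⟩

lemma fn_self {g u : S.Q → S.G} {t : S.Q} (ht : Good h t) (hu : S.q (g t) (u t) = t) :
    fn h g t (u t) = 1 := by
  unfold fn
  rw [if_pos]
  refine ⟨ht, ?_⟩
  rw [hu]
  exact ht.1

lemma fn_add (g : S.Q → S.G) (hg : ∀ t, Good h t → g t ∈ GT h t) (t : S.Q) (x y : S.G) :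
    fn h g t (x * y) = fn h g t x + fn h g t y := by
  by_cases ht : Good h t
  · rcases hg t ht x with hx | hx
    · have e1 : fn h g t x = 0 := by
        unfold fn
        rw [if_neg (fun hc => hc.2 hx)]
      have e2 : fn h g t (x * y) = fn h g t y := by
        unfold fn
        rw [q_shift h _ hx]
      rw [e1, e2, zero_add]
    · rcases hg t ht y with hy | hy
      · have e1 : fn h g t y = 0 := by
          unfold fn
          rw [if_neg (fun hc => hc.2 hy)]
        have e2 : fn h g t (x * y) = fn h g t x := by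
          unfold fn
          rw [mul_comm, q_shift h _ hy]
        rw [e1, e2, add_zero]
      · have e0 : S.q (g t) (x * y) = S.zero := (h.qs3 _ _ _).1 (hx.trans hy.symm)
        have e1 : fn h g t x = 1 := by
          unfold fn
          rw [if_pos ⟨ht, by rw [hx]; exact ht.1⟩]
        have e2 : fn h g t y = 1 := by
          unfold fn
          rw [if_pos ⟨ht, by rw [hy]; exact ht.1⟩]
        have e3 : fn h g t (x * y) = 0 := by
          unfold fn
          rw [if_neg (fun hc => hc.2 e0)]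
        rw [e1, e2, e3]
        decide
  · have e : ∀ z, fn h g t z = 0 := fun z => by
      unfold fn
      rw [if_neg (fun hc => ht hc.1)]
    rw [e, e, e, add_zero]

include hb in
lemma fn_val {g u : S.Q → S.G} {t : S.Q} (ht : Good h t) (hg : g t ∈ GT h t)
    (hu : S.q (g t) (u t) = t) (x : S.G) :
    β (g t) x = if fn h g t x = 1 then β (g t) (u t) else 0 := by
  split_ifs with h1
  · rw [hb.eq, hu, fn_one h hg h1]
  · exact (b_zero_iff h hb _ _).2 (fn_ne h ht h1)

lemma sy_prod {H : Subgroup S.G} {χ : S.G → S.G → ZMod 2} (hχ : Sy S H χ) {ι : Type*}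
    (h : IsQuat S) (A : Finset ι) (g : ι → S.G) (hg : ∀ t ∈ A, g t ∈ H) (x : S.G) :
    χ (∏ t ∈ A, g t) x = ∑ t ∈ A, χ (g t) x := by
  classical
  induction A using Finset.induction_on with
  | empty =>
    rw [Finset.prod_empty, Finset.sum_empty]
    exact hχ.2.2 1 H.one_mem x (q_one' h x)
  | insert s A hs ih =>
    rw [Finset.prod_insert hs, Finset.sum_insert hs,
      hχ.1 _ (hg s (Finset.mem_insert_self s A)) _
        (H.prod_mem fun t ht => hg t (Finset.mem_insert_of_mem ht)),
      ih fun t ht => hg t (Finset.mem_insert_of_mem ht)]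

include h hb in
/-- a set of good quaternions is realised by one element, or some nonempty proper subset of it has
sum zero -/
theorem key (g u : S.Q → S.G)
    (hg : ∀ t, Good h t → g t ∈ GT h t) (hu : ∀ t, Good h t → S.q (g t) (u t) = t)
    (A : Finset S.Q) (hAg : ∀ t ∈ A, Good h t) : (∃ x, ∀ t ∈ A, fn h g t x = 1) ∨
      ∃ Y ⊆ A, Y.Nonempty ∧ (∃ b ∈ A, b ∉ Y) ∧ ∑ t ∈ Y, β (g t) (u t) = 0 := by
  classical
  rcases solve_or (fn h g) (fn_add h g hg) A with ⟨x, hx⟩ | ⟨Z, hZA, hZ0, hZo, hZi⟩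
  · exact Or.inl ⟨x, hx⟩
  · right
    by_contra hcon
    push Not at hcon
    -- the sums of the values over subsets of `A`
    have step : ∀ (E : Finset S.Q) (b α : S.Q) (z : S.G), E ⊆ A → b ∈ A → b ∉ E →
        (∑ t ∈ E, (if fn h g t z = 1 then β (g t) (u t) else 0) =
          ∑ t ∈ E, (if t ≠ α then β (g t) (u t) else 0)) →
        ∀ t ∈ E, (fn h g t z = 1 ↔ t ≠ α) := by
      intro E b α z hEA hbA hbE hs
      set Y := E.filter (fun t => ¬ (fn h g t z = 1 ↔ t ≠ α)) with hY
      have hYE : Y ⊆ E := Finset.filter_subset _ _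
      have hY0 : ∑ t ∈ Y, β (g t) (u t) = 0 := by
        rw [hY, Finset.sum_filter]
        have e1 : ∀ t ∈ E, (if ¬ (fn h g t z = 1 ↔ t ≠ α) then β (g t) (u t) else 0) =
            (if fn h g t z = 1 then β (g t) (u t) else 0) +
            (if t ≠ α then β (g t) (u t) else 0) := by
          intro t _
          by_cases p1 : fn h g t z = 1 <;> by_cases p2 : t ≠ α
          · rw [if_pos p1, if_pos p2, if_neg (not_not.2 (iff_of_true p1 p2)), hb.two]
          · rw [if_pos p1, if_neg p2, if_pos (fun hc => p2 (hc.1 p1)), add_zero]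
          · rw [if_neg p1, if_pos p2, if_pos (fun hc => p1 (hc.2 p2)), zero_add]
          · rw [if_neg p1, if_neg p2, if_neg (not_not.2 (iff_of_false p1 p2)), add_zero]
        rw [Finset.sum_congr rfl e1, Finset.sum_add_distrib, hs, hb.two]
      intro t ht
      by_contra hc
      exact hcon Y (hYE.trans hEA) ⟨t, Finset.mem_filter.2 ⟨ht, hc⟩⟩ ⟨b, hbA,
        fun hc' => hbE (hYE hc')⟩ hY0
    have hcard1 : Z.card ≠ 1 := by
      intro hc
      obtain ⟨t, rfl⟩ := Finset.card_eq_one.1 hc
      have htg : Good h t := hAg t (hZA (Finset.mem_singleton_self t))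
      have h1 := hZ0 (u t)
      rw [Finset.sum_singleton, fn_self h htg (hu t htg)] at h1
      exact one_ne_zero h1
    have hcard2 : 1 < Z.card := by
      rcases hZo with ⟨m, hm⟩
      omega
    obtain ⟨α, hα, γ, hγ, hαγ⟩ := Finset.one_lt_card.1 hcard2
    have hgA : ∀ t ∈ Z, Good h t := fun t ht => hAg t (hZA ht)
    obtain ⟨x, hx⟩ := hZi (Z.erase γ) (Finset.erase_ssubset hγ) (fun t => if t = α then 0 else 1)
    obtain ⟨y, hy⟩ := hZi (Z.erase α) (Finset.erase_ssubset hα) (fun t => if t = γ then 0 else 1)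
    -- the values of the products
    have val : ∀ (E : Finset S.Q) (z : S.G), E ⊆ Z → β (∏ t ∈ E, g t) z =
        ∑ t ∈ E, (if fn h g t z = 1 then β (g t) (u t) else 0) := by
      intro E z hE
      rw [b_prod h hb]
      refine Finset.sum_congr rfl fun t ht => ?_
      exact fn_val h hb (hgA t (hE ht)) (hg t (hgA t (hE ht))) (hu t (hgA t (hE ht))) z
    have e1 : β (∏ t ∈ Z.erase γ, g t) x =
        ∑ t ∈ Z.erase γ, (if t ≠ α then β (g t) (u t) else 0) := by
      rw [val _ _ (Finset.erase_subset _ _)]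
      refine Finset.sum_congr rfl fun t ht => ?_
      rw [hx t ht]
      by_cases hc : t = α
      · rw [if_pos hc, if_neg (by decide), if_neg (not_not.2 hc)]
      · rw [if_neg hc, if_pos rfl, if_pos hc]
    have e2 : β (∏ t ∈ Z.erase α, g t) y =
        ∑ t ∈ Z.erase α, (if t ≠ γ then β (g t) (u t) else 0) := by
      rw [val _ _ (Finset.erase_subset _ _)]
      refine Finset.sum_congr rfl fun t ht => ?_
      rw [hy t ht]
      by_cases hc : t = γ
      · rw [if_pos hc, if_neg (by decide), if_neg (not_not.2 hc)]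
      · rw [if_neg hc, if_pos rfl, if_pos hc]
    have e3 : ∑ t ∈ Z.erase γ, (if t ≠ α then β (g t) (u t) else 0) =
        ∑ t ∈ Z.erase α, (if t ≠ γ then β (g t) (u t) else 0) := by
      rw [← Finset.add_sum_erase (Z.erase γ) _ (Finset.mem_erase.2 ⟨hαγ, hα⟩),
        ← Finset.add_sum_erase (Z.erase α) _ (Finset.mem_erase.2 ⟨hαγ.symm, hγ⟩),
        if_neg (not_not.2 rfl), if_neg (not_not.2 rfl), Finset.erase_right_comm]
      congr 1
      refine Finset.sum_congr rfl fun t ht => ?_
      rw [if_pos (Finset.ne_of_mem_erase (Finset.mem_of_mem_erase ht)),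
        if_pos (Finset.ne_of_mem_erase ht)]
    obtain ⟨z, hz1, hz2⟩ := h.qs4 _ _ _ _ ((hb.eq _ _ _ _).1 (e1.trans (e3.trans e2.symm)))
    have f1 := val (Z.erase γ) z (Finset.erase_subset _ _)
    rw [← (hb.eq _ _ _ _).2 hz1, e1] at f1
    have f2 := val (Z.erase α) z (Finset.erase_subset _ _)
    rw [← (hb.eq _ _ _ _).2 hz2, e2] at f2
    have h1 := step (Z.erase γ) γ α z ((Finset.erase_subset _ _).trans hZA) (hZA hγ)
      (Finset.notMem_erase _ _) f1.symm
    have h2 := step (Z.erase α) α γ z ((Finset.erase_subset _ _).trans hZA) (hZA hα)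
      (Finset.notMem_erase _ _) f2.symm
    have h01 : ∀ w : ZMod 2, w ≠ 1 → w = 0 := by decide
    have g1 : fn h g α z = 0 := h01 _ fun hc =>
      (h1 α (Finset.mem_erase.2 ⟨hαγ, hα⟩)).1 hc rfl
    have g2 : fn h g γ z = 0 := h01 _ fun hc =>
      (h2 γ (Finset.mem_erase.2 ⟨hαγ.symm, hγ⟩)).1 hc rfl
    have g3 := hZ0 z
    rw [← Finset.add_sum_erase Z _ hα, ← Finset.add_sum_erase (Z.erase α) _
      (Finset.mem_erase.2 ⟨hαγ.symm, hγ⟩), g1, g2, zero_add, zero_add,
      Finset.sum_congr rfl (g := fun _ => (1 : ZMod 2)) (fun t ht =>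
        (h2 t (Finset.mem_of_mem_erase ht)).2 (Finset.ne_of_mem_erase ht)), Finset.sum_const,
      nsmul_eq_mul, mul_one, ZMod.natCast_eq_zero_iff_even, Finset.card_erase_of_mem
        (Finset.mem_erase.2 ⟨hαγ.symm, hγ⟩), Finset.card_erase_of_mem hα] at g3
    rcases hZo with ⟨m, hm⟩
    rcases g3 with ⟨k, hk⟩
    omega

include h hb in
lemma prod_val (g u : S.Q → S.G)
    (hg : ∀ t, Good h t → g t ∈ GT h t) (hu : ∀ t, Good h t → S.q (g t) (u t) = t)
    (A : Finset S.Q) (hAg : ∀ t ∈ A, Good h t) (x : S.G) (hx : ∀ t ∈ A, fn h g t x = 1) :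
    β (∏ t ∈ A, g t) x = ∑ t ∈ A, β (g t) (u t) := by
  rw [b_prod h hb]
  refine Finset.sum_congr rfl fun t ht => ?_
  rw [fn_val h hb (hAg t ht) (hg t (hAg t ht)) (hu t (hAg t ht)), if_pos (hx t ht)]

include h hb in
/-- relations between good quaternions are respected by symbols -/
theorem zero_sum {H : Subgroup S.G} {χ : S.G → S.G → ZMod 2}
    (hχ : Sy S H χ) (g u : S.Q → S.G) (hgH : ∀ t, Good h t → g t ∈ H)
    (hg : ∀ t, Good h t → g t ∈ GT h t) (hu : ∀ t, Good h t → S.q (g t) (u t) = t) (n : ℕ) :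
    ∀ A : Finset S.Q, A.card = n → (∀ t ∈ A, Good h t) → ∑ t ∈ A, β (g t) (u t) = 0 →
      ∑ t ∈ A, χ (g t) (u t) = 0 := by
  classical
  induction n using Nat.strong_induction_on with
  | _ n ih =>
  intro A hA hAg hsum
  rcases key h hb g u hg hu A hAg with ⟨x, hx⟩ | ⟨Y, hYA, hYne, ⟨b, hbA, hbY⟩, hY0⟩
  · have e1 : β (∏ t ∈ A, g t) x = 0 := by
      rw [prod_val h hb g u hg hu A hAg x hx, hsum]
    have e2 := hχ.2.2 (∏ t ∈ A, g t) (H.prod_mem fun t ht => hgH t (hAg t ht)) x
      ((b_zero_iff h hb _ _).1 e1)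
    rw [sy_prod hχ h A g (fun t ht => hgH t (hAg t ht))] at e2
    rw [← e2]
    refine Finset.sum_congr rfl fun t ht => ?_
    refine sy_eq h hχ (hgH t (hAg t ht)) (hgH t (hAg t ht)) ?_
    rw [hu t (hAg t ht), fn_one h (hg t (hAg t ht)) (hx t ht)]
  · have hpos : 0 < Y.card := Finset.card_pos.2 hYne
    have hcard := Finset.card_sdiff_add_card_eq_card hYA
    have hlt : Y.card < n := by
      rw [← hA]
      refine Finset.card_lt_card ⟨hYA, fun hc => hbY (hc hbA)⟩
    have h1 := ih Y.card hlt Y rfl (fun t ht => hAg t (hYA ht)) hY0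
    have h2 := ih (A \ Y).card (by omega) (A \ Y) rfl
      (fun t ht => hAg t (Finset.sdiff_subset ht)) (by
        have h3 := Finset.sum_sdiff (f := fun t => β (g t) (u t)) hYA
        rw [hY0, hsum, add_zero] at h3
        exact h3)
    rw [← Finset.sum_sdiff hYA, h1, h2, add_zero]

include h hb in
/-- sums of good quaternions are quaternions -/
theorem single (g u : S.Q → S.G)
    (hg : ∀ t, Good h t → g t ∈ GT h t) (hu : ∀ t, Good h t → S.q (g t) (u t) = t) (n : ℕ) :
    ∀ A : Finset S.Q, A.card = n → (∀ t ∈ A, Good h t) →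
      ∃ A' ⊆ A, ∃ x, β (∏ t ∈ A', g t) x = ∑ t ∈ A, β (g t) (u t) := by
  classical
  induction n using Nat.strong_induction_on with
  | _ n ih =>
  intro A hA hAg
  rcases key h hb g u hg hu A hAg with ⟨x, hx⟩ | ⟨Y, hYA, hYne, -, hY0⟩
  · exact ⟨A, subset_rfl, x, prod_val h hb g u hg hu A hAg x hx⟩
  · have hpos : 0 < Y.card := Finset.card_pos.2 hYne
    have hcard := Finset.card_sdiff_add_card_eq_card hYA
    obtain ⟨A', hA', x, hx⟩ := ih (A \ Y).card (by omega) (A \ Y) rfl
      (fun t ht => hAg t (Finset.sdiff_subset ht))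
    refine ⟨A', hA'.trans Finset.sdiff_subset, x, ?_⟩
    rw [hx, ← Finset.sum_sdiff hYA, hY0, add_zero]

end

end Pool.Agent.J6H42.CE
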